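import Pool.Agent.helper17.CH.SpecQ
import Pool.Agent.helper45.SX.ABL

/-!
# Row MAB: Abel summation for sums over primes
-/

set_option autoImplicit false

namespace Pool.Agent.CH

open Finset MeasureTheory

private theorem MAB_sub (α β : ℝ) (F : ℝ → ℝ) (hα : 0 < α) (hαβ : α ≤ β) :
    ∫ s in (Real.log α)..(Real.log β), F (Real.exp s) = ∫ t in α..β, F t / t := by
  have h1 : ∫ x in α..β, ((fun s => F (Real.exp s)) ∘ Real.log) x * x⁻¹ =
      ∫ u in (Real.log α)..(Real.log β), F (Real.exp u) := by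
    refine intervalIntegral.integral_comp_mul_deriv_of_deriv_nonneg ?_ ?_ ?_
    · intro x hx
      rw [Set.uIcc_of_le hαβ] at hx
      exact (Real.continuousAt_log (by linarith [hx.1] : x ≠ 0)).continuousWithinAt
    · intro x hx
      rw [min_eq_left hαβ, max_eq_right hαβ] at hx
      exact Real.hasDerivAt_log (by linarith [hx.1] : x ≠ 0)
    · intro x hx
      rw [min_eq_left hαβ, max_eq_right hαβ] at hx
      have : 0 < x := by linarith [hx.1]
      positivity
  rw [← h1]
  apply intervalIntegral.integral_congr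
  intro x hx
  rw [Set.uIcc_of_le hαβ] at hx
  have hx0 : 0 < x := by linarith [hx.1]
  simp only [Function.comp]
  rw [Real.exp_log hx0, div_eq_mul_inv]

theorem MAB (hMER : MER_stmt) : MAB_stmt := by
  obtain ⟨C, hC, hM⟩ := hMER
  refine ⟨C, hC, ?_⟩
  intro α β L F hα hαβ hαL hF hF0
  have hL : 0 < L := by
    by_contra hcon
    push Not at hcon
    nlinarith
  have hβ : 0 < β := lt_of_lt_of_le hα hαβ
  set P := (Icc 1 ⌊Real.exp (β * L)⌋₊).filter
    (fun p : ℕ => p.Prime ∧ Real.exp (α * L) ≤ (p : ℝ)) with hP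
  have hmem : ∀ p ∈ P, p.Prime ∧ 0 < (p : ℝ) ∧ α ≤ Real.log p / L ∧ Real.log p / L ≤ β := by
    intro p hp
    rw [hP, mem_filter, mem_Icc] at hp
    obtain ⟨⟨_, h2⟩, hpr, h3⟩ := hp
    have hp0 : (0 : ℝ) < p := by exact_mod_cast hpr.pos
    refine ⟨hpr, hp0, ?_, ?_⟩
    · rw [le_div_iff₀ hL, ← Real.log_exp (α * L)]
      exact Real.log_le_log (Real.exp_pos _) h3
    · rw [div_le_iff₀ hL, ← Real.log_exp (β * L)]
      apply Real.log_le_log hp0
      calc (p : ℝ) ≤ (⌊Real.exp (β * L)⌋₊ : ℝ) := by exact_mod_cast h2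
        _ ≤ Real.exp (β * L) := Nat.floor_le (Real.exp_pos _).le
  have hlog : Real.log α ≤ Real.log β := Real.log_le_log hα hαβ
  have hK : 0 ≤ C / (α * L) := by positivity
  have key := Pool.Agent.SX.ABL P (fun p => Real.log (Real.log p / L)) (fun p => 1 / (p : ℝ))
    (Real.log α) (Real.log β) 1 (C / (α * L)) (fun s => F (Real.exp s)) hlog zero_le_one hK ?_ ?_ ?_ ?_ ?_
  · rw [MAB_sub α β F hα hαβ, one_mul, Real.exp_log hα] at key
    have e1 : ∑ p ∈ P, F (Real.log p / L) / (p : ℝ) =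
        ∑ i ∈ P, 1 / (i : ℝ) * F (Real.exp (Real.log (Real.log i / L))) := by
      apply sum_congr rfl
      intro p hp
      obtain ⟨_, _, h3, _⟩ := hmem p hp
      rw [Real.exp_log (lt_of_lt_of_le hα h3)]
      ring
    rw [e1]
    refine key.trans (le_of_eq ?_)
    ring
  · intro p hp q hq hpq
    obtain ⟨_, h2, h3, _⟩ := hmem p hp
    have h5 : (p : ℝ) < q := by exact_mod_cast hpq
    apply Real.log_lt_log (lt_of_lt_of_le hα h3)
    exact (div_lt_div_iff_of_pos_right hL).2 (Real.log_lt_log h2 h5)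
  · intro p hp
    obtain ⟨_, _, h3, h4⟩ := hmem p hp
    exact ⟨Real.log_le_log hα h3, Real.log_le_log (lt_of_lt_of_le hα h3) h4⟩
  · intro s hs t ht hst
    have hes : ∀ u ∈ Set.Icc (Real.log α) (Real.log β), Real.exp u ∈ Set.Icc α β := by
      intro u hu
      constructor
      · rw [← Real.exp_log hα]; exact Real.exp_le_exp.mpr hu.1
      · rw [← Real.exp_log hβ]; exact Real.exp_le_exp.mpr hu.2
    exact hF (hes s hs) (hes t ht) (Real.exp_le_exp.mpr hst)
  · intro u hu
    apply hF0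
    constructor
    · rw [← Real.exp_log hα]; exact Real.exp_le_exp.mpr hu.1
    · rw [← Real.exp_log hβ]; exact Real.exp_le_exp.mpr hu.2
  · intro i hi
    obtain ⟨hpr, hi0, h3, h4⟩ := hmem i hi
    have h2a : (2 : ℝ) ≤ Real.exp (α * L) := by
      have := Real.add_one_le_exp (α * L)
      linarith
    have hle : Real.exp (α * L) ≤ (i : ℝ) := by
      rw [hP, mem_filter] at hi
      exact hi.2.2
    have h6 := hM (Real.exp (α * L)) (i : ℝ) h2a hle
    rw [Real.log_exp, Nat.floor_natCast] at h6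
    have h7 : P.filter (fun j => j ≤ i) ⊆ (Icc 1 i).filter
        (fun p : ℕ => p.Prime ∧ Real.exp (α * L) ≤ (p : ℝ)) := by
      intro j hj
      rw [mem_filter, hP, mem_filter, mem_Icc] at hj
      rw [mem_filter, mem_Icc]
      exact ⟨⟨hj.1.1.1, hj.2⟩, hj.1.2⟩
    calc ∑ j ∈ P.filter (fun j => j ≤ i), 1 / (j : ℝ)
        ≤ ∑ p ∈ (Icc 1 i).filter (fun p : ℕ => p.Prime ∧ Real.exp (α * L) ≤ (p : ℝ)), 1 / (p : ℝ) :=
          sum_le_sum_of_subset_of_nonneg h7 (fun p _ _ => by positivity)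
      _ ≤ Real.log (Real.log i / (α * L)) + C / (α * L) := h6
      _ = 1 * (Real.log (Real.log i / L) - Real.log α) + C / (α * L) := by
          have h8 : 0 < Real.log i / L := lt_of_lt_of_le hα h3
          rw [one_mul, ← Real.log_div h8.ne' hα.ne', div_div, mul_comm L α]

end Pool.Agent.CH
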